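import Pool.Agent.N208.BT.Stm3
import Pool.Agent.N73.BTbase

/-!
# BT/SU: the skew operators of trace zero are spanned by the long roots
-/

set_option autoImplicit false

noncomputable section

namespace Pool.Agent.N400.BTSU

open Matrix Pool.Agent.N208.BT
open Pool.Agent.N73.BT (hf_add_left hf_smul_left hf_conj hf_add_right hf_smul_right hf_zero_left
  hf_sub_left hf_sub_right hfL R_apply mat_ext R_add_left R_smul_left R_add_right R_smul_right
  R_zero_left R_zero_right hf_self)

variable {n : ℕ}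

/-- the span of the long roots -/
def S (n : ℕ) : Submodule ℝ (M n) :=
  Submodule.span ℝ {Y : M n | ∃ x : V n, hf x x = 0 ∧ Y = Complex.I • R x x}

/-- the span of the long roots and of the scalars -/
def T (n : ℕ) : Submodule ℝ (M n) := S n ⊔ Submodule.span ℝ {Complex.I • (1 : M n)}

/-- `i R(a, a)` -/
def q (a : V n) : M n := Complex.I • R a a

lemma S_le : S n ≤ T n := le_sup_left

lemma q_iso {x : V n} (h : hf x x = 0) : q x ∈ S n := Submodule.subset_span ⟨x, h, rfl⟩

lemma q_add (a b : V n) : q (a + b) = q a + q b + Complex.I • (R a b + R b a) := by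
  unfold q
  rw [R_add_left, R_add_right, R_add_right]
  module

lemma q_smul (c : ℂ) (a : V n) : q (c • a) = (c * star c) • q a := by
  unfold q
  rw [R_smul_left, R_smul_right]
  module

/-- the first basis vector -/
def e (i : Fin (n + 1)) : V n := Pi.single i 1

lemma hf_e0 (x : V n) : hf x (e 0) = x 0 := by
  unfold hf e
  simp

lemma hf_es (x : V n) (j : Fin n) : hf x (e j.succ) = - x j.succ := by
  unfold hf e
  rw [Pi.single_eq_of_ne (Fin.succ_ne_zero j).symm, star_zero, mul_zero, zero_sub,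
    Finset.sum_eq_single j]
  · rw [Pi.single_eq_same, star_one, mul_one]
  · intro i _ hij
    rw [Pi.single_eq_of_ne (fun h => hij (Fin.succ_injective _ h)), star_zero, mul_zero]
  · intro h
    exact absurd (Finset.mem_univ j) h

lemma one_eq : (1 : M n) = R (e 0) (e 0) - ∑ j : Fin n, R (e j.succ) (e j.succ) := by
  apply mat_ext
  intro x
  rw [Matrix.one_mulVec, Matrix.sub_mulVec, Matrix.sum_mulVec, R_apply, hf_e0]
  have h1 : ∑ j : Fin n, R (e j.succ) (e j.succ) *ᵥ x = - ∑ j : Fin n, x j.succ • (e j.succ : V n) := by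
    rw [← Finset.sum_neg_distrib]
    refine Finset.sum_congr rfl fun j _ => ?_
    rw [R_apply, hf_es, neg_smul]
  rw [h1, sub_neg_eq_add]
  have h2 : x = ∑ i, x i • (e i : V n) := by
    funext k
    rw [Finset.sum_apply]
    unfold e
    simp [Pi.single_apply]
  conv_lhs => rw [h2, Fin.sum_univ_succ]

lemma hf_tail {m : V n} (hm : m 0 = 0) : hf m m = -((∑ i : Fin n, ‖m i.succ‖ ^ 2 : ℝ) : ℂ) := by
  unfold hf
  rw [hm, zero_mul, zero_sub]
  push_cast
  congr 1
  refine Finset.sum_congr rfl fun i _ => ?_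
  exact Complex.mul_conj' _

lemma hf_mix {m : V n} (hm : m 0 = 0) (c : ℂ) :
    hf (c • e 0 + m) (c • e 0 + m) = c * star c + hf m m := by
  have h1 : hf m (e 0) = 0 := by rw [hf_e0, hm]
  have h2 : hf (e 0) m = 0 := by rw [hf_conj, h1, star_zero]
  have h3 : hf (e 0 : V n) (e 0) = 1 := by
    rw [hf_e0]
    unfold e
    rw [Pi.single_eq_same]
  rw [hf_add_left, hf_add_right, hf_add_right, hf_smul_left, hf_smul_right, hf_smul_left,
    hf_smul_right, h1, h2, h3]
  ring

lemma q_mix {m : V n} (hm : m 0 = 0) {c : ℂ} (hc : c * star c = - hf m m) :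
    q (c • e 0 + m) ∈ S n := by
  apply q_iso
  rw [hf_mix hm, hc, neg_add_cancel]

lemma pair {m : V n} (hm : m 0 = 0) {c : ℂ} (hc : c * star c = - hf m m) :
    (c * star c) • q (e 0) + q m ∈ S n := by
  have h1 := q_mix hm hc
  have hc' : (-c) * star (-c) = - hf m m := by rw [star_neg, neg_mul_neg, hc]
  have h2 := q_mix hm hc'
  rw [q_add, q_smul] at h1 h2
  have h3 := (S n).smul_mem (1 / 2 : ℝ) ((S n).add_mem h1 h2)
  have h4 : (1 / 2 : ℝ) • ((c * star c) • q (e 0) + q m +
      Complex.I • (R (c • e 0) m + R m (c • e 0)) + ((-c * star (-c)) • q (e 0) + q m +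
        Complex.I • (R (-c • e 0) m + R m (-c • e 0)))) = (c * star c) • q (e 0) + q m := by
    rw [R_smul_left, R_smul_right, R_smul_left, R_smul_right, star_neg, neg_mul_neg]
    have h5 : ∀ Z : M n, (1 / 2 : ℝ) • Z = (1 / 2 : ℂ) • Z := by
      intro Z
      rw [← Complex.coe_smul]
      congr 1
      push_cast
      rfl
    rw [h5]
    module
  rwa [h4] at h3

lemma q_e0 : q (e 0 : V n) ∈ T n := by
  have h1 : ∀ j : Fin n, q (e 0) + q (e j.succ) ∈ S n := by
    intro j
    have hm : (e j.succ : V n) 0 = 0 := Pi.single_eq_of_ne (Fin.succ_ne_zero j).symm _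
    have h2 := pair hm (c := 1) (by
      rw [hf_es]
      unfold e
      rw [Pi.single_eq_same]
      simp)
    rwa [star_one, mul_one, one_smul] at h2
  have h2 : ∑ j : Fin n, (q (e 0) + q (e j.succ)) ∈ T n :=
    S_le ((S n).sum_mem fun j _ => h1 j)
  have h3 : Complex.I • (1 : M n) ∈ T n :=
    Submodule.mem_sup_right (Submodule.mem_span_singleton_self _)
  have h4 := (T n).add_mem h3 h2
  have h5 : Complex.I • (1 : M n) + ∑ j : Fin n, (q (e 0) + q (e j.succ)) =
      ((n : ℝ) + 1) • q (e 0) := by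
    have h6 : Complex.I • (1 : M n) = q (e 0) - ∑ j : Fin n, q (e j.succ) := by
      conv_lhs => rw [one_eq]
      rw [smul_sub, Finset.smul_sum]
      rfl
    rw [h6, Finset.sum_add_distrib, Finset.sum_const, Finset.card_univ, Fintype.card_fin,
      add_smul, one_smul, Nat.cast_smul_eq_nsmul]
    abel
  rw [h5] at h4
  have h6 := (T n).smul_mem ((n : ℝ) + 1)⁻¹ h4
  rwa [smul_smul, inv_mul_cancel₀ (by positivity), one_smul] at h6

lemma real_mem {Y : M n} (h : Y ∈ T n) (t : ℝ) : (t : ℂ) • Y ∈ T n := by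
  rw [Complex.coe_smul]
  exact (T n).smul_mem t h

lemma q_tail {m : V n} (hm : m 0 = 0) : q m ∈ T n := by
  set r : ℝ := ∑ i : Fin n, ‖m i.succ‖ ^ 2 with hr
  have hr0 : 0 ≤ r := Finset.sum_nonneg fun i _ => by positivity
  have h1 : ((Real.sqrt r : ℝ) : ℂ) * star ((Real.sqrt r : ℝ) : ℂ) = - hf m m := by
    rw [hf_tail hm, neg_neg, ← hr]
    have h2 : star ((Real.sqrt r : ℝ) : ℂ) = ((Real.sqrt r : ℝ) : ℂ) := Complex.conj_ofReal _
    rw [h2, ← Complex.ofReal_mul, Real.mul_self_sqrt hr0]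
  have h2 := S_le (pair hm h1)
  have h3 : ((Real.sqrt r : ℝ) : ℂ) * star ((Real.sqrt r : ℝ) : ℂ) = ((r : ℝ) : ℂ) := by
    rw [h1, hf_tail hm, neg_neg, ← hr]
  rw [h3] at h2
  have h4 := (T n).sub_mem h2 (real_mem q_e0 r)
  rwa [add_sub_cancel_left] at h4

lemma cross {m : V n} (hm : m 0 = 0) (c : ℂ) :
    Complex.I • (R (c • e 0) m + R m (c • e 0)) ∈ T n := by
  by_cases hc : c = 0
  · rw [hc, zero_smul, R_zero_left, R_zero_right, add_zero, smul_zero]
    exact (T n).zero_mem
  by_cases hm0 : m = 0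
  · rw [hm0, R_zero_left, R_zero_right, add_zero, smul_zero]
    exact (T n).zero_mem
  set r : ℝ := ∑ i : Fin n, ‖m i.succ‖ ^ 2 with hr
  have hr0 : 0 < r := by
    obtain ⟨i, hi⟩ := Function.ne_iff.1 hm0
    have hi0 : i ≠ 0 := by
      rintro rfl
      exact hi hm
    obtain ⟨j, rfl⟩ := Fin.exists_succ_eq.2 hi0
    have h1 : 0 < ‖m j.succ‖ ^ 2 := by
      have : 0 < ‖m j.succ‖ := norm_pos_iff.2 hi
      positivity
    refine lt_of_lt_of_le h1 ?_
    exact Finset.single_le_sum (f := fun i : Fin n => ‖m i.succ‖ ^ 2)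
      (fun i _ => by positivity) (Finset.mem_univ j)
  have hc0 : 0 < ‖c‖ := norm_pos_iff.2 hc
  set s : ℝ := Real.sqrt r / ‖c‖ with hs
  have hs0 : 0 < s := div_pos (Real.sqrt_pos.2 hr0) hc0
  have h1 : ((s : ℂ) * c) * star ((s : ℂ) * c) = - hf m m := by
    rw [hf_tail hm, neg_neg, ← hr, star_mul']
    have h2 : star (s : ℂ) = (s : ℂ) := Complex.conj_ofReal _
    have h3 : c * star c = ((‖c‖ ^ 2 : ℝ) : ℂ) := by
      push_cast
      exact Complex.mul_conj' c
    rw [h2]
    calc (s : ℂ) * c * ((s : ℂ) * star c) = (s : ℂ) * (s : ℂ) * (c * star c) := by ring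
      _ = ((s * s * ‖c‖ ^ 2 : ℝ) : ℂ) := by rw [h3]; push_cast; ring
      _ = (r : ℂ) := by
        congr 1
        rw [hs]
        field_simp
        exact Real.sq_sqrt hr0.le
  have h2 := S_le (q_mix hm h1)
  rw [q_add, q_smul] at h2
  have h3 : ((s : ℂ) * c) * star ((s : ℂ) * c) = ((r : ℝ) : ℂ) := by
    rw [h1, hf_tail hm, neg_neg, ← hr]
  rw [h3] at h2
  have h4 := (T n).sub_mem h2 ((T n).add_mem (real_mem q_e0 r) (q_tail hm))
  rw [add_sub_cancel_left] at h4
  have h5 := real_mem h4 s⁻¹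
  have h6 : ((s⁻¹ : ℝ) : ℂ) • Complex.I • (R (((s : ℂ) * c) • e 0) m + R m (((s : ℂ) * c) • e 0)) =
      Complex.I • (R (c • e 0) m + R m (c • e 0)) := by
    have h7 : star (s : ℂ) = (s : ℂ) := Complex.conj_ofReal _
    have h8 : ((s⁻¹ : ℝ) : ℂ) * (s : ℂ) = 1 := by
      rw [← Complex.ofReal_mul, inv_mul_cancel₀ hs0.ne', Complex.ofReal_one]
    rw [R_smul_left, R_smul_right, R_smul_left, R_smul_right, star_mul', h7, mul_smul, mul_smul,
      ← smul_add, smul_comm Complex.I, smul_smul, h8, one_smul]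
  rwa [h6] at h5

lemma q_mem (a : V n) : q a ∈ T n := by
  set m : V n := a - a 0 • e 0 with hm
  have hm0 : m 0 = 0 := by
    rw [hm, Pi.sub_apply, Pi.smul_apply]
    unfold e
    rw [Pi.single_eq_same, smul_eq_mul, mul_one, sub_self]
  have h1 : a = a 0 • e 0 + m := by rw [hm, add_sub_cancel]
  rw [h1, q_add, q_smul]
  refine (T n).add_mem ((T n).add_mem ?_ (q_tail hm0)) (cross hm0 _)
  have h2 : a 0 * star (a 0) = ((‖a 0‖ ^ 2 : ℝ) : ℂ) := by
    push_cast
    exact Complex.mul_conj' _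
  rw [h2]
  exact real_mem q_e0 _

lemma anti_mem (a b : V n) : R a b - R b a ∈ T n := by
  have h1 := q_mem (a + Complex.I • b)
  rw [q_add] at h1
  have h2 := (T n).sub_mem h1 ((T n).add_mem (q_mem a) (q_mem (Complex.I • b)))
  rw [add_sub_cancel_left, R_smul_left, R_smul_right] at h2
  have h3 : Complex.I • (star Complex.I • R a b + Complex.I • R b a) = R a b - R b a := by
    have h4 : star Complex.I = - Complex.I := Complex.conj_I
    rw [h4, smul_add, smul_smul, smul_smul, mul_neg, Complex.I_mul_I, neg_neg, one_smul,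
      neg_one_smul, sub_eq_add_neg]
  rwa [h3] at h2

lemma skew_mem {X : M n} (hX : IsSk X) : X ∈ T n := by
  have h1 : ∀ a b x : V n, (X * R a b) *ᵥ x = R (X *ᵥ a) b *ᵥ x := by
    intro a b x
    rw [← Matrix.mulVec_mulVec, R_apply, R_apply, Matrix.mulVec_smul]
  have h2 : ∀ a b x : V n, (R a b * X) *ᵥ x = - (R a (X *ᵥ b) *ᵥ x) := by
    intro a b x
    rw [← Matrix.mulVec_mulVec, R_apply, R_apply]
    have h3 : hf (X *ᵥ x) b = - hf x (X *ᵥ b) := by linear_combination hX x b
    rw [h3, neg_smul]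
  have h1' : ∀ a b : V n, X * R a b = R (X *ᵥ a) b := fun a b => mat_ext (h1 a b)
  have h2' : ∀ a b : V n, R a b * X = - R a (X *ᵥ b) := fun a b => mat_ext fun x => by
    rw [h2, Matrix.neg_mulVec]
  have h3 : X = R (X *ᵥ e 0) (e 0) - ∑ j : Fin n, R (X *ᵥ e j.succ) (e j.succ) := by
    conv_lhs => rw [← mul_one X, one_eq, mul_sub, Finset.mul_sum]
    rw [h1']
    congr 1
    exact Finset.sum_congr rfl fun j _ => h1' _ _
  have h4 : X = - R (e 0) (X *ᵥ e 0) + ∑ j : Fin n, R (e j.succ) (X *ᵥ e j.succ) := by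
    conv_lhs => rw [← one_mul X, one_eq, sub_mul, Finset.sum_mul]
    rw [h2', sub_eq_add_neg, ← Finset.sum_neg_distrib]
    congr 1
    exact Finset.sum_congr rfl fun j _ => by rw [h2', neg_neg]
  have h5 : X + X = (R (X *ᵥ e 0) (e 0) - R (e 0) (X *ᵥ e 0)) -
      ∑ j : Fin n, (R (X *ᵥ e j.succ) (e j.succ) - R (e j.succ) (X *ᵥ e j.succ)) := by
    rw [Finset.sum_sub_distrib]
    nth_rewrite 1 [h3]
    nth_rewrite 3 [h4]
    abel
  have h6 : X + X ∈ T n := by
    rw [h5]
    exact (T n).sub_mem (anti_mem _ _) ((T n).sum_mem fun j _ => anti_mem _ _)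
  have h7 := (T n).smul_mem (1 / 2 : ℝ) h6
  rwa [← two_smul ℝ X, smul_smul, show (1 / 2 : ℝ) * 2 = 1 by norm_num, one_smul] at h7

lemma trace_R (a b : V n) : (R a b).trace = hf a b := by
  have h3 : hf a b = ∑ j, a j * hf (Pi.single j 1) b := by
    have h4 : hfL b a = hf a b := rfl
    rw [← h4, LinearMap.pi_apply_eq_sum_univ (hfL b) a]
    refine Finset.sum_congr rfl fun j _ => ?_
    rw [smul_eq_mul]
    congr 1
    have e : (fun k => if j = k then (1 : ℂ) else 0) = (Pi.single j 1 : V n) := by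
      funext k
      rw [Pi.single_apply]
      by_cases hjk : j = k
      · rw [if_pos hjk, if_pos hjk.symm]
      · rw [if_neg hjk, if_neg (fun h => hjk h.symm)]
    rw [e]
    rfl
  rw [h3]
  rfl

lemma trace_S {Y : M n} (h : Y ∈ S n) : Y.trace = 0 := by
  unfold S at h
  induction h using Submodule.span_induction with
  | mem x hx =>
    obtain ⟨a, ha, rfl⟩ := hx
    rw [Matrix.trace_smul, trace_R, ha, smul_zero]
  | zero => exact Matrix.trace_zero _ _
  | add x y _ _ hx hy => rw [Matrix.trace_add, hx, hy, add_zero]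
  | smul c x _ hx => rw [Matrix.trace_smul, hx, smul_zero]

/-- **BT/SU** -/
theorem main : S_SU := by
  intro n X hX htr
  obtain ⟨Y, hY, Z, hZ, rfl⟩ := Submodule.mem_sup.1 (skew_mem hX)
  obtain ⟨t, rfl⟩ := Submodule.mem_span_singleton.1 hZ
  have h1 := trace_S hY
  rw [Matrix.trace_add, h1, zero_add, Matrix.trace_smul, Matrix.trace_smul, Matrix.trace_one,
    Fintype.card_fin] at htr
  have h2 : t = 0 := by
    by_contra ht
    rw [smul_eq_zero] at htr
    rcases htr with h | h
    · exact ht h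
    · rw [smul_eq_zero] at h
      rcases h with h | h
      · exact Complex.I_ne_zero h
      · have : ((n + 1 : ℕ) : ℂ) ≠ 0 := Nat.cast_ne_zero.2 (Nat.succ_ne_zero n)
        exact this h
  rw [h2, zero_smul, add_zero]
  exact hY

end Pool.Agent.N400.BTSU
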