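import Pool.Agent.N720.SL.Stm2
import Pool.Agent.H789R2.FR.Smooth

/-!
# CY/RL: the lemma of Riemann and Lebesgue for densities on the sphere
-/

set_option autoImplicit false

namespace Pool.Agent.N400.CYRL

open MeasureTheory Set Metric Complex Filter Topology
open scoped ENNReal NNReal RealInnerProductSpace
open Pool.Agent.N720.SL
open Pool.Agent.H789R2.FR (sg sg_finite sg_ae decay)

/-- the unit sphere -/
abbrev X (n : ℕ) : Set (E n) := Metric.sphere (0 : E n) 1

/-- the surface measure on the unit sphere -/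
noncomputable def mu (n : ℕ) : Measure (X n) := (volume : Measure (E n)).toSphere

instance (n : ℕ) : IsFiniteMeasure (mu n) := by
  unfold mu
  infer_instance

theorem ex_add (a b : ℝ) : ex (a + b) = ex a * ex b := by
  unfold ex
  rw [← Complex.exp_add]
  congr 1
  push_cast
  ring

theorem ex_zero : ex 0 = 1 := by
  unfold ex
  simp

theorem norm_ex (a : ℝ) : ‖ex a‖ = 1 := by
  unfold ex
  exact Complex.norm_exp_ofReal_mul_I _

theorem star_ex (a : ℝ) : star (ex a) = ex (-a) := by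
  unfold ex
  have h : star (Complex.exp ((2 * Real.pi * a : ℝ) * Complex.I)) =
      (starRingEnd ℂ) (Complex.exp ((2 * Real.pi * a : ℝ) * Complex.I)) := rfl
  rw [h, ← Complex.exp_conj, map_mul, Complex.conj_ofReal, Complex.conj_I]
  congr 1
  push_cast
  ring

theorem cont_ex : Continuous ex := by
  unfold ex
  fun_prop

/-- the characters -/
noncomputable def ch {n : ℕ} (a : E n) : C(X n, ℂ) :=
  ⟨fun x => ex ⟪(x : E n), a⟫, cont_ex.comp (by fun_prop)⟩

theorem ch_apply {n : ℕ} (a : E n) (x : X n) : ch a x = ex ⟪(x : E n), a⟫ := rfl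

/-- the algebra of the characters -/
noncomputable def A (n : ℕ) : StarSubalgebra ℂ C(X n, ℂ) where
  toSubalgebra := Algebra.adjoin ℂ (range ch)
  star_mem' := by
    change Algebra.adjoin ℂ (range (ch (n := n))) ≤ star (Algebra.adjoin ℂ (range (ch (n := n))))
    refine Algebra.adjoin_le ?_
    rintro - ⟨a, rfl⟩
    refine Algebra.subset_adjoin ⟨-a, ContinuousMap.ext fun x => ?_⟩
    rw [ch_apply, inner_neg_right, ← star_ex]
    rfl

theorem A_coe (n : ℕ) : Subalgebra.toSubmodule (A n).toSubalgebra =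
    Submodule.span ℂ (range (ch (n := n))) := by
  apply Algebra.adjoin_eq_span_of_subset
  refine Subset.trans ?_ Submodule.subset_span
  intro x hx
  refine Submonoid.closure_induction (fun _ => id) ⟨0, ?_⟩ ?_ hx
  · ext1 z
    rw [ch_apply, inner_zero_right, ex_zero]
    rfl
  · rintro - - - - ⟨a, rfl⟩ ⟨b, rfl⟩
    refine ⟨a + b, ?_⟩
    ext1 z
    rw [ch_apply, inner_add_right, ex_add]
    rfl

theorem A_sep (n : ℕ) : (A n).SeparatesPoints := by
  intro x y hxy
  have h0 : (x : E n) - y ≠ 0 := fun h => hxy (Subtype.ext (sub_eq_zero.1 h))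
  set a : E n := (1 / (2 * ‖(x : E n) - y‖ ^ 2)) • ((x : E n) - y) with ha
  refine ⟨_, ⟨ch a, Algebra.subset_adjoin ⟨a, rfl⟩, rfl⟩, ?_⟩
  intro h
  have h1 : ex ⟪(x : E n), a⟫ = ex ⟪(y : E n), a⟫ := h
  have h2 : ex ⟪(x : E n) - y, a⟫ = 1 := by
    have h3 : ⟪(x : E n), a⟫ = ⟪(y : E n), a⟫ + ⟪(x : E n) - y, a⟫ := by
      rw [← inner_add_left, add_sub_cancel]
    rw [h3, ex_add] at h1
    have h4 : ex ⟪(y : E n), a⟫ ≠ 0 := by
      rw [← norm_pos_iff, norm_ex]
      exact one_pos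
    exact mul_left_cancel₀ h4 (h1.trans (mul_one _).symm)
  have h3 : ⟪(x : E n) - y, a⟫ = 1 / 2 := by
    rw [ha, inner_smul_right, real_inner_self_eq_norm_sq]
    have : ‖(x : E n) - y‖ ≠ 0 := norm_ne_zero_iff.2 h0
    field_simp
  rw [h3] at h2
  unfold ex at h2
  have h4 : ((2 * Real.pi * (1 / 2) : ℝ) : ℂ) * Complex.I = Real.pi * Complex.I := by
    push_cast
    ring
  rw [h4, Complex.exp_pi_mul_I] at h2
  norm_num at h2

theorem span_dense (n : ℕ) : (Submodule.span ℂ (range (ch (n := n)))).topologicalClosure = ⊤ := by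
  rw [← A_coe]
  exact congr_arg (Subalgebra.toSubmodule <| StarSubalgebra.toSubalgebra ·)
    (ContinuousMap.starSubalgebra_topologicalClosure_eq_top_of_separatesPoints (A n) (A_sep n))

/-- the transform -/
noncomputable def T' {n : ℕ} (f : X n → ℂ) (ξ : E n) : ℂ :=
  ∫ x, f x * ex (-⟪(x : E n), ξ⟫) ∂(mu n)

theorem cont_char {n : ℕ} (ξ : E n) : Continuous fun x : X n => ex (-⟪(x : E n), ξ⟫) :=
  cont_ex.comp (by fun_prop)

theorem integrable_mul {n : ℕ} {f : X n → ℂ} (hf : Integrable f (mu n)) (ξ : E n) :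
    Integrable (fun x => f x * ex (-⟪(x : E n), ξ⟫)) (mu n) := by
  refine hf.mul_bdd (c := 1) (cont_char ξ).aestronglyMeasurable ?_
  exact Filter.Eventually.of_forall fun x => (norm_ex _).le

theorem integrable_cont {n : ℕ} (f : C(X n, ℂ)) : Integrable f (mu n) :=
  f.continuous.integrable_of_hasCompactSupport (HasCompactSupport.of_compactSpace _)

/-- the transform tends to zero -/
def P {n : ℕ} (f : X n → ℂ) : Prop :=
  ∀ ε : ℝ, 0 < ε → ∃ R : ℝ, ∀ ξ : E n, R ≤ ‖ξ‖ → ‖T' f ξ‖ ≤ ε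

theorem T'_sub_le {n : ℕ} {f g : X n → ℂ} (hf : Integrable f (mu n)) (hg : Integrable g (mu n))
    (ξ : E n) : ‖T' f ξ - T' g ξ‖ ≤ ∫ x, ‖f x - g x‖ ∂(mu n) := by
  unfold T'
  rw [← integral_sub (integrable_mul hf ξ) (integrable_mul hg ξ)]
  refine (norm_integral_le_integral_norm _).trans (le_of_eq ?_)
  congr 1
  funext x
  rw [← sub_mul, norm_mul, norm_ex, mul_one]

/-- approximation -/
theorem P_approx {n : ℕ} {f : X n → ℂ} (hf : Integrable f (mu n))
    (h : ∀ ε : ℝ, 0 < ε → ∃ g : X n → ℂ, Integrable g (mu n) ∧ P g ∧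
      ∫ x, ‖f x - g x‖ ∂(mu n) ≤ ε) : P f := by
  intro ε hε
  obtain ⟨g, hg, hPg, hfg⟩ := h (ε / 2) (by positivity)
  obtain ⟨R, hR⟩ := hPg (ε / 2) (by positivity)
  refine ⟨R, fun ξ hξ => ?_⟩
  have h1 := T'_sub_le hf hg ξ
  have h2 := norm_add_le (T' f ξ - T' g ξ) (T' g ξ)
  rw [sub_add_cancel] at h2
  linarith [hR ξ hξ]

theorem P_ch {n : ℕ} (hn : 2 ≤ n) (a : E n) : P (ch a) := by
  intro ε hε
  obtain ⟨C, hC, hdec⟩ := decay n hn
  have hs : (0 : ℝ) < ((n : ℝ) - 1) / 2 := by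
    have : (2 : ℝ) ≤ n := by exact_mod_cast hn
    linarith
  have hlim := (tendsto_rpow_neg_atTop hs).const_mul C
  rw [mul_zero] at hlim
  obtain ⟨R, hR⟩ := eventually_atTop.1 (hlim.eventually (gt_mem_nhds hε))
  refine ⟨max R 1 + ‖a‖, fun ξ hξ => ?_⟩
  set z : E n := (2 * Real.pi) • (ξ - a) with hz
  have hzn : max R 1 ≤ ‖z‖ := by
    have h1 : ‖ξ‖ - ‖a‖ ≤ ‖ξ - a‖ := norm_sub_norm_le ξ a
    have h2 : ‖z‖ = 2 * Real.pi * ‖ξ - a‖ := by
      rw [hz, norm_smul, Real.norm_of_nonneg (by positivity)]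
    rw [h2]
    have h3 : (1 : ℝ) ≤ 2 * Real.pi := by
      have := Real.pi_gt_three
      linarith
    have h4 : 1 * ‖ξ - a‖ ≤ 2 * Real.pi * ‖ξ - a‖ := mul_le_mul_of_nonneg_right h3 (norm_nonneg _)
    linarith
  have hz0 : z ≠ 0 := by
    rw [← norm_pos_iff]
    have : (1 : ℝ) ≤ max R 1 := le_max_right _ _
    linarith
  have h1 := hdec z hz0
  have h2 : Pool.Agent.H789R2.FR.T (fun _ : E n => (1 : ℂ)) z = T' (ch a) ξ := by
    unfold Pool.Agent.H789R2.FR.T T' mu
    have h3 : (sg n) = ((volume : Measure (E n)).toSphere).map Subtype.val := rfl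
    rw [h3, (MeasurableEmbedding.subtype_coe
      (Metric.isClosed_sphere (x := (0 : E n)) (ε := 1)).measurableSet).integral_map]
    congr 1
    funext x
    rw [ch_apply, ← ex_add, mul_one]
    unfold ex
    congr 1
    have h4 : ⟪z, (x : E n)⟫ = 2 * Real.pi * (⟪(x : E n), ξ⟫ - ⟪(x : E n), a⟫) := by
      rw [hz, real_inner_smul_left, real_inner_comm, inner_sub_right]
    rw [h4]
    push_cast
    ring
  rw [h2] at h1
  refine h1.trans ?_
  have h3 := hR ‖z‖ ((le_max_left _ _).trans hzn)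
  have h4 : -((n : ℝ) - 1) / 2 = -(((n : ℝ) - 1) / 2) := by ring
  rw [h4]
  exact h3.le

theorem P_span {n : ℕ} (hn : 2 ≤ n) (f : C(X n, ℂ)) (hf : f ∈ Submodule.span ℂ (range (ch (n := n)))) :
    P f := by
  induction hf using Submodule.span_induction with
  | mem f hf =>
    obtain ⟨a, rfl⟩ := hf
    exact P_ch hn a
  | zero =>
    intro ε hε
    refine ⟨0, fun ξ _ => ?_⟩
    have h : T' (⇑(0 : C(X n, ℂ))) ξ = 0 := by
      unfold T'
      simp
    rw [h, norm_zero]
    exact hε.le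
  | add f g _ _ hf hg =>
    intro ε hε
    obtain ⟨R1, h1⟩ := hf (ε / 2) (by positivity)
    obtain ⟨R2, h2⟩ := hg (ε / 2) (by positivity)
    refine ⟨max R1 R2, fun ξ hξ => ?_⟩
    have h : T' (⇑(f + g)) ξ = T' f ξ + T' g ξ := by
      unfold T'
      rw [← integral_add (integrable_mul (integrable_cont f) ξ)
        (integrable_mul (integrable_cont g) ξ)]
      congr 1
      funext x
      rw [ContinuousMap.add_apply, add_mul]
    rw [h]
    have h3 := norm_add_le (T' f ξ) (T' g ξ)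
    linarith [h1 ξ ((le_max_left _ _).trans hξ), h2 ξ ((le_max_right _ _).trans hξ)]
  | smul c f _ hf =>
    intro ε hε
    obtain ⟨R1, h1⟩ := hf (ε / (‖c‖ + 1)) (by positivity)
    refine ⟨R1, fun ξ hξ => ?_⟩
    have h : T' (⇑(c • f)) ξ = c * T' f ξ := by
      unfold T'
      rw [← integral_const_mul]
      congr 1
      funext x
      rw [ContinuousMap.smul_apply, smul_eq_mul, mul_assoc]
    rw [h, norm_mul]
    have h2 := h1 ξ hξ
    rw [le_div_iff₀ (by positivity)] at h2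
    have h3 : 0 ≤ ‖T' f ξ‖ := norm_nonneg _
    nlinarith

theorem P_cont {n : ℕ} (hn : 2 ≤ n) (f : C(X n, ℂ)) : P f := by
  refine P_approx (integrable_cont f) fun ε hε => ?_
  have h1 : f ∈ (Submodule.span ℂ (range (ch (n := n)))).topologicalClosure := by
    rw [span_dense]
    trivial
  have h2 : f ∈ closure ((Submodule.span ℂ (range (ch (n := n))) : Submodule ℂ C(X n, ℂ)) :
      Set C(X n, ℂ)) := h1
  set M : ℝ := (mu n).real univ with hM
  have hM0 : 0 ≤ M := measureReal_nonneg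
  obtain ⟨g, hg, hfg⟩ := Metric.mem_closure_iff.1 h2 (ε / (M + 1)) (by positivity)
  refine ⟨g, integrable_cont g, P_span hn g hg, ?_⟩
  rw [dist_eq_norm] at hfg
  calc ∫ x, ‖f x - g x‖ ∂(mu n) ≤ ∫ _x, ε / (M + 1) ∂(mu n) := by
        refine integral_mono (((integrable_cont f).sub (integrable_cont g)).norm)
          (integrable_const _) fun x => ?_
        exact ((f - g).norm_coe_le_norm x).trans hfg.le
    _ = M * (ε / (M + 1)) := by rw [integral_const, smul_eq_mul]
    _ ≤ ε := by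
        rw [mul_div_assoc', div_le_iff₀ (by positivity)]
        nlinarith

/-- **CY/RL** -/
theorem main : S_RL := by
  intro n hn g hg ε hε
  have hemb := MeasurableEmbedding.subtype_coe
    (Metric.isClosed_sphere (x := (0 : E n)) (ε := 1)).measurableSet
  have h3 : (sg n) = (mu n).map Subtype.val := rfl
  have hint : Integrable (fun x : X n => g x) (mu n) := by
    rw [h3, hemb.integrable_map_iff] at hg
    exact hg
  have hP : P (fun x : X n => g x) := by
    refine P_approx hint fun ε hε => ?_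
    obtain ⟨h, h1, h2⟩ := hint.exists_boundedContinuous_integral_sub_le hε
    exact ⟨h, h2, P_cont hn h.toContinuousMap, h1⟩
  obtain ⟨R, hR⟩ := hP ε hε
  refine ⟨R, fun ξ hξ => ?_⟩
  have h4 := hR ξ hξ
  unfold T' at h4
  rw [h3, hemb.integral_map]
  exact h4

end Pool.Agent.N400.CYRL
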