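import Mathlib
import Pool.Agent.N604.MW.Stm5

/-!
# Project KV (helper604): `k` polynomials miss a positive proportion of the integers (helper400)
-/

set_option autoImplicit false

namespace Pool.Agent.N400.KVSharp

open Finset Pool.Agent.N604.MW

/-- lower bound of the values -/
lemma lower (d : ℕ) (c b : ℝ) (θ : Fin d → ℝ) (hc : 0 < c) (ε : ℝ) (hε : 0 < ε) :
    ∃ K : ℝ, 0 ≤ K ∧ ∀ x : ℕ,
    (1 - ε) * (c * (x : ℝ) ^ (d + 1)) - K ≤ (⌊PP d c b θ (x : ℝ)⌋ : ℝ) := by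
  obtain ⟨A, hA⟩ : ∃ A : ℝ, A = ∑ j, |θ j| + |b| := ⟨_, rfl⟩
  have hA0 : 0 ≤ A := by rw [hA]; positivity
  refine ⟨A + A * (A / (ε * c)) ^ d + 1, by positivity, fun x => ?_⟩
  have hx0 : (0 : ℝ) ≤ x := Nat.cast_nonneg x
  have h1 : ∑ j : Fin d, θ j * (x : ℝ) ^ ((j : ℕ) + 1) + b ≥ -(A * (1 + (x : ℝ) ^ d)) := by
    have h2 : ∀ j : Fin d, -(|θ j| * (1 + (x : ℝ) ^ d)) ≤ θ j * (x : ℝ) ^ ((j : ℕ) + 1) := by
      intro j
      have h3 : (x : ℝ) ^ ((j : ℕ) + 1) ≤ 1 + (x : ℝ) ^ d := by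
        rcases Nat.eq_zero_or_pos x with h | h
        · subst h
          have : (0 : ℝ) ≤ ((0 : ℕ) : ℝ) ^ d := by positivity
          rw [Nat.cast_zero] at this ⊢
          rw [zero_pow (Nat.succ_ne_zero _)]
          linarith
        · have h4 : (1 : ℝ) ≤ x := by exact_mod_cast h
          have h5 : (x : ℝ) ^ ((j : ℕ) + 1) ≤ (x : ℝ) ^ d := pow_le_pow_right₀ h4 j.2
          linarith
      have h4 : (0 : ℝ) ≤ (x : ℝ) ^ ((j : ℕ) + 1) := by positivity
      have h5 := neg_abs_le (θ j)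
      have h6 := abs_nonneg (θ j)
      nlinarith
    have h3 : ∑ j : Fin d, -(|θ j| * (1 + (x : ℝ) ^ d)) ≤
        ∑ j : Fin d, θ j * (x : ℝ) ^ ((j : ℕ) + 1) := Finset.sum_le_sum fun j _ => h2 j
    rw [Finset.sum_neg_distrib, ← Finset.sum_mul] at h3
    have h4 : -(|b| * (1 + (x : ℝ) ^ d)) ≤ b := by
      have h5 := neg_abs_le b
      have h6 : (0 : ℝ) ≤ (x : ℝ) ^ d := by positivity
      have h7 := abs_nonneg b
      nlinarith
    rw [hA]
    linarith
  have h2 : -(A * (A / (ε * c)) ^ d) ≤ ε * (c * (x : ℝ) ^ (d + 1)) - A * (x : ℝ) ^ d := by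
    have e1 : ε * (c * (x : ℝ) ^ (d + 1)) - A * (x : ℝ) ^ d = (x : ℝ) ^ d * (x * (ε * c) - A) := by
      rw [pow_succ]
      ring
    have h3 : (0 : ℝ) ≤ (x : ℝ) ^ d := by positivity
    have hεc : 0 < ε * c := by positivity
    rw [e1]
    by_cases h : A ≤ x * (ε * c)
    · have h4 : 0 ≤ (x : ℝ) ^ d * (x * (ε * c) - A) := mul_nonneg h3 (by linarith)
      have h5 : 0 ≤ A * (A / (ε * c)) ^ d := by positivity
      linarith
    · have h4 : (x : ℝ) ^ d ≤ (A / (ε * c)) ^ d := by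
        refine pow_le_pow_left₀ hx0 ?_ d
        rw [le_div_iff₀ hεc]
        linarith
      have h5 : (x : ℝ) ^ d * A ≤ (A / (ε * c)) ^ d * A := mul_le_mul_of_nonneg_right h4 hA0
      have h6 : 0 ≤ (x : ℝ) ^ d * (x * (ε * c)) := by positivity
      nlinarith
  have h4 : PP d c b θ (x : ℝ) - 1 ≤ (⌊PP d c b θ (x : ℝ)⌋ : ℝ) := (Int.sub_one_lt_floor _).le
  have h5 : PP d c b θ (x : ℝ) = c * (x : ℝ) ^ (d + 1) +
      ∑ j : Fin d, θ j * (x : ℝ) ^ ((j : ℕ) + 1) + b := rfl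
  linarith

/-- the choice of `ε` -/
lemma choice (k : ℕ) (q : ℝ) (hq : q < 1) :
    ∃ ε : ℝ, 0 < ε ∧ ε < 1 ∧ (1 + ε) ^ k * ((1 + ε) / (1 - ε)) * q ≤ 1 - (1 - q) / 2 := by
  have h1 : Filter.Tendsto (fun ε : ℝ => (1 + ε) ^ k * ((1 + ε) / (1 - ε)) * q) (nhds 0)
      (nhds ((1 + 0) ^ k * ((1 + 0) / (1 - 0)) * q)) := by
    have h2 : Filter.Tendsto (fun ε : ℝ => 1 + ε) (nhds 0) (nhds (1 + 0)) :=
      Filter.tendsto_id.const_add 1
    have h3 : Filter.Tendsto (fun ε : ℝ => 1 - ε) (nhds 0) (nhds (1 - 0)) :=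
      Filter.tendsto_id.const_sub 1
    exact ((h2.pow k).mul (h2.div h3 (by norm_num))).mul_const q
  have h2 : (1 + 0 : ℝ) ^ k * ((1 + 0) / (1 - 0)) * q < 1 - (1 - q) / 2 := by
    have : (1 + 0 : ℝ) ^ k * ((1 + 0) / (1 - 0)) * q = q := by
      simp
    rw [this]
    linarith
  have h3 := h1.eventually (gt_mem_nhds h2)
  have h4 : ∀ᶠ ε : ℝ in nhds 0, ε < 1 := gt_mem_nhds one_pos
  have h5 := (h3.and h4).filter_mono (nhdsWithin_le_nhds (s := Set.Ioi (0 : ℝ)))
  have h6 : ∀ᶠ ε : ℝ in nhdsWithin 0 (Set.Ioi 0), 0 < ε := self_mem_nhdsWithin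
  obtain ⟨ε, ⟨h7, h8⟩, h9⟩ := (h5.and h6).exists
  exact ⟨ε, h9, h8, h7.le⟩

lemma card_range_floor (y ε : ℝ) (hy : 0 ≤ y) (h : 1 ≤ ε * y) :
    ((Finset.range (⌊y⌋₊ + 1)).card : ℝ) ≤ (1 + ε) * y := by
  rw [Finset.card_range]
  push_cast
  have := Nat.floor_le hy
  linarith

lemma card_Ioc_floor (a b ε : ℝ) (ha : 0 ≤ a) (hab : a ≤ b) (h : 1 ≤ ε * (b - a)) :
    ((Finset.Ioc ⌊a⌋₊ ⌊b⌋₊).card : ℝ) ≤ (1 + ε) * (b - a) := by
  rw [Nat.card_Ioc, Nat.cast_sub (Nat.floor_le_floor hab)]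
  have h1 := Nat.floor_le (ha.trans hab)
  have h2 := Nat.lt_floor_add_one a
  linarith

theorem sharp2 : S_SHARP2 := by
  classical
  intro d c b θ hd hc hprod
  obtain ⟨k, hk⟩ : ∃ k : ℕ, k = d + 1 := ⟨_, rfl⟩
  have hk0 : k ≠ 0 := by omega
  -- the number `t`
  obtain ⟨t, ht0, ht1, htk⟩ : ∃ t : ℝ, 0 < t ∧ t < 1 ∧ t ^ k = 3 / 4 := by
    refine ⟨(3 / 4 : ℝ) ^ ((k : ℝ)⁻¹), by positivity, ?_, Real.rpow_inv_natCast_pow (by norm_num) hk0⟩
    exact Real.rpow_lt_one (by norm_num) (by norm_num) (by positivity)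
  have hq : t + (1 - t) * t < 1 := by nlinarith
  obtain ⟨ε, hε0, hε1, hε⟩ := choice k (t + (1 - t) * t) hq
  -- the constant `K`
  have hlow : ∀ i, ∃ K : ℝ, 0 ≤ K ∧ ∀ x : ℕ,
      (1 - ε) * (c i * (x : ℝ) ^ (d + 1)) - K ≤ (⌊PP d (c i) (b i) (θ i) (x : ℝ)⌋ : ℝ) :=
    fun i => lower d (c i) (b i) (θ i) (hc i) ε hε0
  choose K hK0 hK using hlow
  have hKs : 0 ≤ ∑ i, K i := Finset.sum_nonneg fun i _ => hK0 i
  obtain ⟨L, hL⟩ : ∃ L : ℝ, L = 1 / (ε * (t * (1 - t))) := ⟨_, rfl⟩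
  have h1t : 0 < 1 - t := by linarith
  have hL0 : 0 < L := by rw [hL]; positivity
  have hcs : 0 ≤ ∑ i, c i := Finset.sum_nonneg fun i _ => (hc i).le
  refine ⟨(1 - (t + (1 - t) * t)) / 2, by linarith,
    max (max ⌈(∑ i, K i) / ε⌉₊ ⌈(∑ i, c i) * L ^ k⌉₊) 1, fun N hN S hS => ?_⟩
  have hN1 : (∑ i, K i) / ε ≤ N :=
    (Nat.le_ceil _).trans (by exact_mod_cast ((le_max_left _ _).trans (le_max_left _ _)).trans hN)
  have hN2 : (∑ i, c i) * L ^ k ≤ N :=
    (Nat.le_ceil _).trans (by exact_mod_cast ((le_max_right _ _).trans (le_max_left _ _)).trans hN)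
  have hN3 : (1 : ℝ) ≤ N := by exact_mod_cast (le_max_right _ _).trans hN
  have h1ε : 0 < 1 - ε := by linarith
  obtain ⟨R, hR⟩ : ∃ R : ℝ, R = (N + ∑ i, K i) / (1 - ε) := ⟨_, rfl⟩
  have hR0 : 0 < R := by
    rw [hR]
    have : 0 < (N : ℝ) + ∑ i, K i := by linarith
    positivity
  have hNR : (N : ℝ) ≤ R := by
    rw [hR, le_div_iff₀ h1ε]
    nlinarith
  have hRN : R ≤ (1 + ε) / (1 - ε) * N := by
    rw [hR, div_mul_eq_mul_div]
    refine div_le_div_of_nonneg_right ?_ h1ε.le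
    rw [div_le_iff₀ hε0] at hN1
    linarith
  -- the roots
  obtain ⟨r, hr⟩ : ∃ r : Fin (d + 1) → ℝ, r = fun i => (R / c i) ^ ((k : ℝ)⁻¹) := ⟨_, rfl⟩
  have hRc : ∀ i, 0 < R / c i := fun i => div_pos hR0 (hc i)
  have hr0 : ∀ i, 0 < r i := fun i => by
    rw [hr]; exact Real.rpow_pos_of_pos (hRc i) _
  have hrk : ∀ i, r i ^ k = R / c i := fun i => by
    rw [hr]; exact Real.rpow_inv_natCast_pow (hRc i).le hk0
  have hrL : ∀ i, L ≤ r i := by
    intro i
    rw [← pow_le_pow_iff_left₀ hL0.le (hr0 i).le hk0, hrk i, le_div_iff₀ (hc i)]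
    refine le_trans ?_ (hN2.trans hNR)
    rw [mul_comm]
    exact mul_le_mul_of_nonneg_right
      (Finset.single_le_sum (f := c) (fun j _ => (hc j).le) (Finset.mem_univ i)) (by positivity)
  have hrprod : ∏ i, r i ≤ R := by
    have h1 : (∏ i, r i) ^ k ≤ R ^ k := by
      rw [← Finset.prod_pow]
      have h2 : ∏ i, r i ^ k = ∏ i, R / c i := Finset.prod_congr rfl fun i _ => hrk i
      rw [h2, Finset.prod_div_distrib, Finset.prod_const, Finset.card_univ, Fintype.card_fin, hk]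
      exact div_le_self (by positivity) hprod
    exact (pow_le_pow_iff_left₀ (Finset.prod_nonneg fun i _ => (hr0 i).le) hR0.le hk0).mp h1
  -- the smallness of one
  have hone : ∀ i, 1 ≤ ε * (t * (1 - t) * r i) := by
    intro i
    have h1 : ε * (t * (1 - t)) * L = 1 := by
      rw [hL]
      field_simp
    have h2 : ε * (t * (1 - t)) * L ≤ ε * (t * (1 - t)) * r i :=
      mul_le_mul_of_nonneg_left (hrL i) (by positivity)
    linarith
  have hone1 : ∀ i, 1 ≤ ε * r i := fun i => (hone i).trans (by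
    refine mul_le_mul_of_nonneg_left ?_ hε0.le
    have h1 : t * (1 - t) ≤ 1 := by nlinarith
    have := mul_le_mul_of_nonneg_right h1 (hr0 i).le
    linarith)
  have honet : ∀ i, 1 ≤ ε * (t * r i) := fun i => (hone i).trans (by
    refine mul_le_mul_of_nonneg_left ?_ hε0.le
    have h1 : t * (1 - t) ≤ t := by nlinarith
    exact mul_le_mul_of_nonneg_right h1 (hr0 i).le)
  have hones : ∀ i, 1 ≤ ε * (r i - t * r i) := fun i => (hone i).trans (by
    refine mul_le_mul_of_nonneg_left ?_ hε0.le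
    have h1 : t * (1 - t) ≤ 1 - t := by nlinarith
    have := mul_le_mul_of_nonneg_right h1 (hr0 i).le
    linarith)
  -- the two boxes
  obtain ⟨B1, hB1⟩ : ∃ B1 : Finset (Fin (d + 1) → ℕ), B1 = Fintype.piFinset fun i =>
    if i = 0 then Finset.range (⌊t * r i⌋₊ + 1) else Finset.range (⌊r i⌋₊ + 1) := ⟨_, rfl⟩
  obtain ⟨B2, hB2⟩ : ∃ B2 : Finset (Fin (d + 1) → ℕ), B2 = Fintype.piFinset fun i =>
    if i = 0 then Finset.Ioc ⌊t * r i⌋₊ ⌊r i⌋₊ else
      if i = Fin.last d then Finset.range (⌊t * r i⌋₊ + 1) else Finset.range (⌊r i⌋₊ + 1) := ⟨_, rfl⟩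
  have hlast : (Fin.last d) ≠ 0 := by
    intro h
    have := congrArg Fin.val h
    simp at this
    omega
  have hcard1 : (B1.card : ℝ) ≤ (1 + ε) ^ k * t * ∏ i, r i := by
    rw [hB1, Fintype.card_piFinset]
    push_cast
    have h1 : ∀ i ∈ (Finset.univ : Finset (Fin (d + 1))),
        (((if i = 0 then Finset.range (⌊t * r i⌋₊ + 1) else Finset.range (⌊r i⌋₊ + 1)).card : ℕ) : ℝ) ≤
        (1 + ε) * (if i = 0 then t else 1) * r i := by
      intro i _
      by_cases h : i = 0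
      · rw [if_pos h, if_pos h]
        have := card_range_floor (t * r i) ε (mul_nonneg ht0.le (hr0 i).le) (honet i)
        linarith
      · rw [if_neg h, if_neg h]
        have := card_range_floor (r i) ε (hr0 i).le (hone1 i)
        linarith
    refine (Finset.prod_le_prod (fun i _ => Nat.cast_nonneg _) h1).trans (le_of_eq ?_)
    rw [Finset.prod_mul_distrib, Finset.prod_mul_distrib, Finset.prod_const, Finset.card_univ,
      Fintype.card_fin, hk, Finset.prod_ite_eq' Finset.univ (0 : Fin (d + 1)) (fun _ => t),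
      if_pos (Finset.mem_univ _)]
  have hcard2 : (B2.card : ℝ) ≤ (1 + ε) ^ k * ((1 - t) * t) * ∏ i, r i := by
    rw [hB2, Fintype.card_piFinset]
    push_cast
    have h1 : ∀ i ∈ (Finset.univ : Finset (Fin (d + 1))),
        (((if i = 0 then Finset.Ioc ⌊t * r i⌋₊ ⌊r i⌋₊ else
      if i = Fin.last d then Finset.range (⌊t * r i⌋₊ + 1) else Finset.range (⌊r i⌋₊ + 1)).card : ℕ) : ℝ) ≤
        (1 + ε) * ((if i = 0 then 1 - t else 1) * (if i = Fin.last d then t else 1)) * r i := by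
      intro i _
      by_cases h : i = 0
      · rw [if_pos h, if_pos h, if_neg (fun h' => hlast (h'.symm.trans h))]
        have := card_Ioc_floor (t * r i) (r i) ε (mul_nonneg ht0.le (hr0 i).le)
          (mul_le_of_le_one_left (hr0 i).le ht1.le) (hones i)
        linarith
      · rw [if_neg h, if_neg h]
        by_cases h' : i = Fin.last d
        · rw [if_pos h', if_pos h']
          have := card_range_floor (t * r i) ε (mul_nonneg ht0.le (hr0 i).le) (honet i)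
          linarith
        · rw [if_neg h', if_neg h']
          have := card_range_floor (r i) ε (hr0 i).le (hone1 i)
          linarith
    refine (Finset.prod_le_prod (fun i _ => Nat.cast_nonneg _) h1).trans (le_of_eq ?_)
    rw [Finset.prod_mul_distrib, Finset.prod_mul_distrib, Finset.prod_mul_distrib, Finset.prod_const,
      Finset.card_univ,
      Fintype.card_fin, hk, Finset.prod_ite_eq' Finset.univ (0 : Fin (d + 1)) (fun _ => 1 - t),
      Finset.prod_ite_eq' Finset.univ (Fin.last d) (fun _ => t),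
      if_pos (Finset.mem_univ _), if_pos (Finset.mem_univ _)]
  -- the inclusion
  have hsub : (S.image (fun m : ℕ => (m : ℤ))) ⊆
      (B1 ∪ B2).image (fun n => ∑ i, ⌊PP d (c i) (b i) (θ i) (n i : ℝ)⌋) := by
    intro z hz
    rw [Finset.mem_image] at hz
    obtain ⟨m, hm, rfl⟩ := hz
    obtain ⟨hmN, n, hn⟩ := hS m hm
    rw [Finset.mem_image]
    refine ⟨n, ?_, hn⟩
    have h1 : ∑ i, ((1 - ε) * (c i * (n i : ℝ) ^ (d + 1)) - K i) ≤ N := by
      calc ∑ i, ((1 - ε) * (c i * (n i : ℝ) ^ (d + 1)) - K i)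
          ≤ ∑ i, (⌊PP d (c i) (b i) (θ i) (n i : ℝ)⌋ : ℝ) :=
            Finset.sum_le_sum fun i _ => hK i (n i)
        _ = (m : ℝ) := by exact_mod_cast congrArg (fun z : ℤ => (z : ℝ)) hn
        _ ≤ N := by exact_mod_cast hmN
    rw [Finset.sum_sub_distrib, ← Finset.mul_sum] at h1
    have h2 : ∑ i, c i * (n i : ℝ) ^ k ≤ R := by
      rw [hR, le_div_iff₀ h1ε, hk]
      linarith
    have hterm : ∀ i, 0 ≤ c i * (n i : ℝ) ^ k := fun i => mul_nonneg (hc i).le (by positivity)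
    have h3 : ∀ i, (n i : ℝ) ≤ r i := by
      intro i
      have h4 : c i * (n i : ℝ) ^ k ≤ R :=
        (Finset.single_le_sum (f := fun i => c i * (n i : ℝ) ^ k) (fun j _ => hterm j)
          (Finset.mem_univ i)).trans h2
      rw [← pow_le_pow_iff_left₀ (Nat.cast_nonneg _) (hr0 i).le hk0, hrk i, le_div_iff₀ (hc i)]
      linarith
    have h3' : ∀ i, n i < ⌊r i⌋₊ + 1 := fun i => Nat.lt_succ_of_le (Nat.le_floor (h3 i))
    have hbig : ∀ i, t * r i < n i → 3 / 4 * R < c i * (n i : ℝ) ^ k := by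
      intro i hi
      have h5 : (t * r i) ^ k < (n i : ℝ) ^ k :=
        pow_lt_pow_left₀ hi (mul_nonneg ht0.le (hr0 i).le) hk0
      rw [mul_pow, htk, hrk i] at h5
      have h6 := mul_lt_mul_of_pos_left h5 (hc i)
      have h7 : c i * (3 / 4 * (R / c i)) = 3 / 4 * R := by
        have := (hc i).ne'
        field_simp
      linarith
    rw [Finset.mem_union]
    by_cases h0 : (n 0 : ℝ) ≤ t * r 0
    · left
      rw [hB1, Fintype.mem_piFinset]
      intro i
      by_cases h : i = 0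
      · rw [if_pos h, h, Finset.mem_range]
        exact Nat.lt_succ_of_le (Nat.le_floor h0)
      · rw [if_neg h, Finset.mem_range]
        exact h3' i
    · right
      rw [not_le] at h0
      have hl : (n (Fin.last d) : ℝ) ≤ t * r (Fin.last d) := by
        by_contra hcon
        rw [not_le] at hcon
        have h4 := hbig 0 h0
        have h5 := hbig (Fin.last d) hcon
        have h6 : c 0 * (n 0 : ℝ) ^ k + c (Fin.last d) * (n (Fin.last d) : ℝ) ^ k ≤
            ∑ i, c i * (n i : ℝ) ^ k := by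
          rw [← Finset.sum_pair (f := fun i => c i * (n i : ℝ) ^ k) hlast.symm]
          exact Finset.sum_le_sum_of_subset_of_nonneg (Finset.subset_univ _) fun i _ _ => hterm i
        linarith
      rw [hB2, Fintype.mem_piFinset]
      intro i
      by_cases h : i = 0
      · rw [if_pos h, h, Finset.mem_Ioc]
        refine ⟨?_, Nat.le_floor (h3 0)⟩
        rw [Nat.floor_lt (mul_nonneg ht0.le (hr0 0).le)]
        exact h0
      · rw [if_neg h]
        by_cases h' : i = Fin.last d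
        · rw [if_pos h', h', Finset.mem_range]
          exact Nat.lt_succ_of_le (Nat.le_floor hl)
        · rw [if_neg h', Finset.mem_range]
          exact h3' i
  have hc1 := Finset.card_le_card hsub
  rw [Finset.card_image_of_injective _ Nat.cast_injective] at hc1
  have hc2 := (hc1.trans Finset.card_image_le).trans (Finset.card_union_le _ _)
  have hc3 : (S.card : ℝ) ≤ B1.card + B2.card := by exact_mod_cast hc2
  have hpos : 0 ≤ (1 + ε) ^ k * (t + (1 - t) * t) := by positivity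
  calc (S.card : ℝ) ≤ (1 + ε) ^ k * t * ∏ i, r i + (1 + ε) ^ k * ((1 - t) * t) * ∏ i, r i :=
        hc3.trans (add_le_add hcard1 hcard2)
    _ = (1 + ε) ^ k * (t + (1 - t) * t) * ∏ i, r i := by ring
    _ ≤ (1 + ε) ^ k * (t + (1 - t) * t) * ((1 + ε) / (1 - ε) * N) :=
        mul_le_mul_of_nonneg_left (hrprod.trans hRN) hpos
    _ = ((1 + ε) ^ k * ((1 + ε) / (1 - ε)) * (t + (1 - t) * t)) * N := by ring
    _ ≤ (1 - (1 - (t + (1 - t) * t)) / 2) * N :=
        mul_le_mul_of_nonneg_right hε (Nat.cast_nonneg _)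

end Pool.Agent.N400.KVSharp
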