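import Pool.Agent.N404.LF.Stm

/-!
# LF/LOW: balanced colourings: many permutations without conflict
-/

set_option autoImplicit false

namespace Pool.Agent.N400.LFLOW

open Finset Classical Pool.Agent.N404.LF

theorem cnt_card {X A : Type} [Fintype X] (f : X → A) (a : A) :
    Nat.card {x // f x = a} = cnt f a := by
  rw [Nat.card_eq_fintype_card, Fintype.card_subtype]
  rfl

/-- a permutation matching the fibres -/
theorem exists_match {N : ℕ} {ι : Type} (F F' : Fin N → ι) (h : ∀ i, cnt F i = cnt F' i) :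
    ∃ r : Equiv.Perm (Fin N), ∀ x, F (r x) = F' x := by
  have h1 : ∀ i, Nonempty ({x // F' x = i} ≃ {x // F x = i}) := by
    intro i
    refine ⟨Fintype.equivOfCardEq ?_⟩
    rw [← Nat.card_eq_fintype_card, ← Nat.card_eq_fintype_card, cnt_card, cnt_card]
    exact (h i).symm
  exact ⟨Equiv.ofFiberEquiv (fun i => (h1 i).some), fun x => Equiv.ofFiberEquiv_map _ x⟩

theorem count_stab {N : ℕ} {ι : Type} [Fintype ι] (F : Fin N → ι)
    [DecidablePred fun g : Equiv.Perm (Fin N) => ∀ x, F (g x) = F x] :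
    (univ.filter fun g : Equiv.Perm (Fin N) => ∀ x, F (g x) = F x).card =
      ∏ i, (cnt F i).factorial := by
  have h := DomMulAct.stabilizer_card F
  have h1 : (univ.filter fun g : Equiv.Perm (Fin N) => ∀ x, F (g x) = F x).card =
      Nat.card {g : Equiv.Perm (Fin N) // F ∘ g = F} := by
    rw [Nat.card_eq_fintype_card, Fintype.card_subtype]
    congr 1
    ext g
    simp only [mem_filter, mem_univ, true_and]
    exact ⟨fun h => funext h, fun h x => congrFun h x⟩
  rw [h1, Nat.card_eq_fintype_card, h]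
  refine Finset.prod_congr rfl fun i _ => ?_
  rw [← cnt_card, Nat.card_eq_fintype_card]

theorem count_match {N : ℕ} {ι : Type} [Fintype ι] (F F' : Fin N → ι)
    (h : ∃ r : Equiv.Perm (Fin N), ∀ x, F (r x) = F' x)
    [DecidablePred fun r : Equiv.Perm (Fin N) => ∀ x, F (r x) = F' x] :
    (univ.filter fun r : Equiv.Perm (Fin N) => ∀ x, F (r x) = F' x).card =
      ∏ i, (cnt F i).factorial := by
  obtain ⟨r0, hr0⟩ := h
  rw [← count_stab]
  refine Finset.card_nbij' (fun r => r * r0⁻¹) (fun g => g * r0) ?_ ?_ ?_ ?_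
  · intro r hr
    rw [Finset.mem_coe, mem_filter] at hr ⊢
    refine ⟨mem_univ _, fun x => ?_⟩
    rw [Equiv.Perm.mul_apply, hr.2, ← hr0]
    congr 1
    exact r0.apply_symm_apply x
  · intro g hg
    rw [Finset.mem_coe, mem_filter] at hg ⊢
    refine ⟨mem_univ _, fun x => ?_⟩
    rw [Equiv.Perm.mul_apply, hg.2, hr0]
  · intro r _
    simp
  · intro g _
    simp

/-- the pairs of different colours -/
abbrev Sp (k : ℕ) : Type := {p : Fin k × Fin k // p.1 ≠ p.2}

theorem card_fst {k : ℕ} (c : Fin k) : Nat.card {p : Sp k // p.1.1 = c} = k - 1 := by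
  have e : {p : Sp k // p.1.1 = c} ≃ {d : Fin k // d ≠ c} :=
    { toFun := fun p => ⟨p.1.1.2, fun h => p.1.2 (p.2.trans h.symm)⟩
      invFun := fun d => ⟨⟨(c, d.1), fun h => d.2 h.symm⟩, rfl⟩
      left_inv := by
        rintro ⟨⟨⟨a, b⟩, hab⟩, rfl⟩
        rfl
      right_inv := fun d => rfl }
  rw [Nat.card_congr e, Nat.card_eq_fintype_card, Fintype.card_subtype_compl, Fintype.card_fin,
    Fintype.card_unique]

theorem card_snd {k : ℕ} (c : Fin k) : Nat.card {p : Sp k // p.1.2 = c} = k - 1 := by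
  have e : {p : Sp k // p.1.2 = c} ≃ {d : Fin k // d ≠ c} :=
    { toFun := fun p => ⟨p.1.1.1, fun h => p.1.2 (h.trans p.2.symm)⟩
      invFun := fun d => ⟨⟨(d.1, c), fun h => d.2 h⟩, rfl⟩
      left_inv := by
        rintro ⟨⟨⟨a, b⟩, hab⟩, rfl⟩
        rfl
      right_inv := fun d => rfl }
  rw [Nat.card_congr e, Nat.card_eq_fintype_card, Fintype.card_subtype_compl, Fintype.card_fin,
    Fintype.card_unique]

theorem card_Sp (k : ℕ) : Nat.card (Sp k) = k * (k - 1) := by
  have e : (Σ c : Fin k, {p : Sp k // p.1.1 = c}) ≃ Sp k :=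
    Equiv.sigmaFiberEquiv (fun p : Sp k => p.1.1)
  rw [← Nat.card_congr e, Nat.card_sigma, Finset.sum_congr rfl fun c _ => card_fst c,
    Finset.sum_const, Finset.card_univ, Fintype.card_fin, smul_eq_mul]

/-- fibres of a map that factors through a product -/
theorem cnt_prod {N M : ℕ} {Q ι : Type} [Fintype Q] (e : Fin N ≃ Q × Fin M) (u : Q → ι) (i : ι) :
    cnt (fun x => u (e x).1) i = Nat.card {p : Q // u p = i} * M := by
  rw [← cnt_card]
  have e1 : {x // u (e x).1 = i} ≃ {p : Q // u p = i} × Fin M :=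
    { toFun := fun x => (⟨(e x.1).1, x.2⟩, (e x.1).2)
      invFun := fun y => ⟨e.symm (y.1.1, y.2), by
        rw [Equiv.apply_symm_apply]
        exact y.1.2⟩
      left_inv := by
        rintro ⟨x, hx⟩
        apply Subtype.ext
        exact e.symm_apply_apply x
      right_inv := by
        rintro ⟨⟨p, hp⟩, j⟩
        simp }
  rw [Nat.card_congr e1, Nat.card_prod, Nat.card_eq_fintype_card (α := Fin M), Fintype.card_fin]

theorem cnt_perm {N : ℕ} {ι : Type} (F : Fin N → ι) (w : Equiv.Perm (Fin N)) (i : ι) :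
    cnt (fun x => F (w x)) i = cnt F i := by
  rw [← cnt_card, ← cnt_card]
  refine Nat.card_congr (w.subtypeEquiv fun x => ?_)
  exact Iff.rfl

theorem key (k M N : ℕ) (hk : 2 ≤ k) (hN : N = k * (k - 1) * M) (f g : Fin N → Fin k)
    (hf : Bal f) (hg : Bal g) :
    (((k - 1) * M).factorial) ^ (2 * k) ≤ M.factorial ^ (k * (k - 1)) *
      (univ.filter fun π : Equiv.Perm (Fin N) => ∀ x, f x ≠ g (π x)).card := by
  have hk0 : 0 < k := by omega
  have e : Nonempty (Fin N ≃ Sp k × Fin M) := by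
    refine ⟨Fintype.equivOfCardEq ?_⟩
    rw [Fintype.card_prod, Fintype.card_fin, Fintype.card_fin, ← Nat.card_eq_fintype_card, card_Sp,
      hN]
  obtain ⟨e⟩ := e
  set h : Fin N → Sp k := fun x => (e x).1 with hh
  have hc : ∀ p, cnt h p = M := by
    intro p
    have h1 := cnt_prod e (fun q => q) p
    rw [show Nat.card {q : Sp k // q = p} = 1 from by simp, one_mul] at h1
    exact h1
  have hc1 : ∀ c, cnt (fun x => (h x).1.1) c = (k - 1) * M := by
    intro c
    have h1 := cnt_prod e (fun q => q.1.1) c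
    rw [card_fst] at h1
    exact h1
  have hc2 : ∀ c, cnt (fun x => (h x).1.2) c = (k - 1) * M := by
    intro c
    have h1 := cnt_prod e (fun q => q.1.2) c
    rw [card_snd] at h1
    exact h1
  have hbal : ∀ u : Fin N → Fin k, Bal u → ∀ c, cnt u c = (k - 1) * M := by
    intro u hu c
    have h1 := hu c
    rw [Fintype.card_fin] at h1
    exact Nat.eq_of_mul_eq_mul_left hk0 (h1.trans (hN.trans (mul_assoc _ _ _)))
  have hA : ∀ w : Equiv.Perm (Fin N),
      (univ.filter fun r : Equiv.Perm (Fin N) => ∀ x, f (r x) = (h (w x)).1.1).card =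
        (((k - 1) * M).factorial) ^ k := by
    intro w
    rw [count_match f (fun x => (h (w x)).1.1) (exists_match _ _ fun i => by
      rw [hbal f hf, cnt_perm (fun x => (h x).1.1) w, hc1]),
      Finset.prod_congr rfl fun c _ => by rw [hbal f hf c], Finset.prod_const, Finset.card_univ,
      Fintype.card_fin]
  have hB : ∀ w : Equiv.Perm (Fin N),
      (univ.filter fun r : Equiv.Perm (Fin N) => ∀ x, g (r x) = (h (w x)).1.2).card =
        (((k - 1) * M).factorial) ^ k := by
    intro w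
    rw [count_match g (fun x => (h (w x)).1.2) (exists_match _ _ fun i => by
      rw [hbal g hg, cnt_perm (fun x => (h x).1.2) w, hc2]),
      Finset.prod_congr rfl fun c _ => by rw [hbal g hg c], Finset.prod_const, Finset.card_univ,
      Fintype.card_fin]
  set Rl : Equiv.Perm (Fin N) → Equiv.Perm (Fin N) × Equiv.Perm (Fin N) → Prop := fun w p =>
    (∀ x, f (p.1 x) = (h (w x)).1.1) ∧ (∀ x, g (p.2 x) = (h (w x)).1.2) with hRl
  have hdc := Finset.sum_card_bipartiteAbove_eq_sum_card_bipartiteBelow (s := univ) (t := univ) Rl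
  have h1 : ∀ w : Equiv.Perm (Fin N), ((univ : Finset (Equiv.Perm (Fin N) ×
      Equiv.Perm (Fin N))).bipartiteAbove Rl w).card = (((k - 1) * M).factorial) ^ (2 * k) := by
    intro w
    have h2 : (univ : Finset (Equiv.Perm (Fin N) × Equiv.Perm (Fin N))).bipartiteAbove Rl w =
        (univ.filter fun r : Equiv.Perm (Fin N) => ∀ x, f (r x) = (h (w x)).1.1) ×ˢ
        (univ.filter fun r : Equiv.Perm (Fin N) => ∀ x, g (r x) = (h (w x)).1.2) := by
      ext ⟨r, r'⟩
      rw [Finset.mem_bipartiteAbove, mem_product, mem_filter, mem_filter]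
      simp [hRl]
    rw [h2, card_product, hA, hB, ← pow_add, two_mul]
  rw [Finset.sum_congr rfl fun w _ => h1 w, Finset.sum_const, Finset.card_univ, Fintype.card_perm,
    Fintype.card_fin, smul_eq_mul] at hdc
  -- the pairs
  set Q : Finset (Equiv.Perm (Fin N) × Equiv.Perm (Fin N)) :=
    univ.filter fun p => ∀ x, f (p.1 x) ≠ g (p.2 x) with hQ
  have h3 : ∀ p : Equiv.Perm (Fin N) × Equiv.Perm (Fin N),
      ((univ : Finset (Equiv.Perm (Fin N))).bipartiteBelow Rl p).card ≤
        if p ∈ Q then M.factorial ^ (k * (k - 1)) else 0 := by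
    intro p
    by_cases h4 : ((univ : Finset (Equiv.Perm (Fin N))).bipartiteBelow Rl p) = ∅
    · rw [h4, Finset.card_empty]
      exact Nat.zero_le _
    obtain ⟨w, hw⟩ := Finset.nonempty_iff_ne_empty.2 h4
    rw [Finset.mem_bipartiteBelow] at hw
    obtain ⟨-, hw1, hw2⟩ := hw
    have hne : ∀ x, f (p.1 x) ≠ g (p.2 x) := by
      intro x
      rw [hw1, hw2]
      exact (h (w x)).2
    have hpQ : p ∈ Q := mem_filter.2 ⟨mem_univ _, hne⟩
    rw [if_pos hpQ]
    have h5 : (univ : Finset (Equiv.Perm (Fin N))).bipartiteBelow Rl p =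
        univ.filter fun w : Equiv.Perm (Fin N) => ∀ x, h (w x) =
          (fun x => (⟨(f (p.1 x), g (p.2 x)), hne x⟩ : Sp k)) x := by
      ext w'
      rw [Finset.mem_bipartiteBelow, mem_filter]
      refine and_congr_right fun _ => ?_
      constructor
      · rintro ⟨a, b⟩ x
        apply Subtype.ext
        exact Prod.ext (a x).symm (b x).symm
      · intro a
        refine ⟨fun x => ?_, fun x => ?_⟩
        · rw [a x]
        · rw [a x]
    have h5' : ∃ r : Equiv.Perm (Fin N), ∀ x, h (r x) =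
        (fun x => (⟨(f (p.1 x), g (p.2 x)), hne x⟩ : Sp k)) x := ⟨w, fun x => by
      apply Subtype.ext
      exact Prod.ext (hw1 x).symm (hw2 x).symm⟩
    rw [h5, count_match h (fun x => (⟨(f (p.1 x), g (p.2 x)), hne x⟩ : Sp k)) h5', Finset.prod_congr rfl fun c _ => by rw [hc c],
      Finset.prod_const, Finset.card_univ, ← Nat.card_eq_fintype_card, card_Sp]
  have h6 : ∑ p : Equiv.Perm (Fin N) × Equiv.Perm (Fin N),
      ((univ : Finset (Equiv.Perm (Fin N))).bipartiteBelow Rl p).card ≤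
        Q.card * M.factorial ^ (k * (k - 1)) := by
    refine (Finset.sum_le_sum fun p _ => h3 p).trans (le_of_eq ?_)
    rw [Finset.sum_ite_mem, Finset.univ_inter, Finset.sum_const, smul_eq_mul]
  rw [← hdc] at h6
  have h7 : Q.card = N.factorial *
      (univ.filter fun π : Equiv.Perm (Fin N) => ∀ x, f x ≠ g (π x)).card := by
    have h8 : N.factorial = (univ : Finset (Equiv.Perm (Fin N))).card := by
      rw [Finset.card_univ, Fintype.card_perm, Fintype.card_fin]
    rw [h8, ← card_product]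
    refine Finset.card_nbij' (fun p => (p.1, p.2 * p.1⁻¹)) (fun p => (p.1, p.2 * p.1)) ?_ ?_ ?_ ?_
    · intro p hp
      have hp' := (mem_filter.1 (Finset.mem_coe.1 hp)).2
      rw [Finset.mem_coe, mem_product, mem_filter]
      refine ⟨mem_univ _, mem_univ _, fun x => ?_⟩
      have h9 := hp' (p.1⁻¹ x)
      have h10 : p.1 (p.1⁻¹ x) = x := p.1.apply_symm_apply x
      rw [h10] at h9
      rw [Equiv.Perm.mul_apply]
      exact h9
    · intro p hp
      have hp' := (mem_filter.1 (mem_product.1 (Finset.mem_coe.1 hp)).2).2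
      rw [Finset.mem_coe, mem_filter]
      refine ⟨mem_univ _, fun x => ?_⟩
      rw [Equiv.Perm.mul_apply]
      exact hp' (p.1 x)
    · intro p _
      simp
    · intro p _
      simp
  rw [h7, mul_assoc] at h6
  have h9 := Nat.le_of_mul_le_mul_left h6 (Nat.factorial_pos N)
  rw [mul_comm (M.factorial ^ _)]
  exact h9

/-- **LF/LOW** -/
theorem main : S_FACT → S_LOW := by
  intro hF k M N hk hN f g hf hg
  have h0 := key k M N hk hN f g hf hg
  set P : ℕ := (univ.filter fun π : Equiv.Perm (Fin N) => ∀ x, f x ≠ g (π x)).card with hP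
  set L := k * (k - 1) with hL
  set s := (k - 1) * M with hs
  have hk1 : 1 ≤ k - 1 := by omega
  have hks : k * s = N := by rw [hN, hL, hs, mul_assoc]
  have hLM : M * L = N := by rw [hN, hL]; ring
  have hkR : (k : ℝ) ≠ 0 := by
    have : (0 : ℝ) < k := by exact_mod_cast (by omega : 0 < k)
    exact this.ne'
  have hsq : (s : ℝ) ^ 2 = (1 - 1 / (k : ℝ)) * N * M := by
    have h1 : (((k - 1 : ℕ) : ℝ)) = (k : ℝ) - 1 := by
      rw [Nat.cast_sub (by omega)]
      norm_num
    rw [hN, hL, hs]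
    push_cast
    rw [h1]
    field_simp
  have hone : (0 : ℝ) ≤ 1 - 1 / (k : ℝ) := by
    have : 1 / (k : ℝ) ≤ 1 := by
      rw [div_le_one (by exact_mod_cast (by omega : 0 < k))]
      exact_mod_cast (by omega : 1 ≤ k)
    linarith
  have hB1 : (1 : ℝ) ≤ 3 * ((N : ℝ) + 1) := by
    have : (0 : ℝ) ≤ N := Nat.cast_nonneg N
    linarith
  have hMN : M ≤ N := by
    rw [← hLM]
    have : 1 ≤ L := Nat.mul_pos (by omega) hk1
    exact Nat.le_mul_of_pos_right M this
  -- numbers
  have e1 : Real.exp (N : ℝ) = Real.exp (M : ℝ) ^ L := by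
    rw [← Real.exp_nat_mul, ← hLM]
    push_cast
    ring_nf
  have e2 : Real.exp (N : ℝ) * Real.exp (N : ℝ) = Real.exp (s : ℝ) ^ (2 * k) := by
    rw [← Real.exp_nat_mul, ← Real.exp_add, ← hks]
    push_cast
    ring_nf
  have h1 : (N.factorial : ℝ) * Real.exp N ≤ 3 * (N + 1) * (N : ℝ) ^ N := (hF N).2
  have h2 : ((M.factorial : ℝ) * Real.exp M) ^ L ≤ (3 * (M + 1) * (M : ℝ) ^ M) ^ L :=
    pow_le_pow_left₀ (by positivity) (hF M).2 L
  have h3 : ((s : ℝ) ^ s) ^ (2 * k) ≤ ((s.factorial : ℝ) * Real.exp s) ^ (2 * k) :=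
    pow_le_pow_left₀ (by positivity) (hF s).1 _
  have h4 : ((s : ℝ) ^ s) ^ (2 * k) = ((1 - 1 / (k : ℝ)) * N * M) ^ N := by
    rw [← hsq, ← pow_mul, ← pow_mul, ← hks]
    congr 1
    ring
  have h5 : (3 * ((M : ℝ) + 1)) ^ L ≤ (3 * ((N : ℝ) + 1)) ^ L := by
    refine pow_le_pow_left₀ (by positivity) ?_ L
    have : (M : ℝ) ≤ N := by exact_mod_cast hMN
    linarith
  have h6 : (N.factorial : ℝ) * (1 - 1 / (k : ℝ)) ^ N * (M.factorial : ℝ) ^ L *
      (Real.exp N * Real.exp N) ≤
      (3 * ((N : ℝ) + 1)) ^ (L + 1) * ((s.factorial : ℝ) ^ (2 * k)) *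
      (Real.exp N * Real.exp N) := by
    calc (N.factorial : ℝ) * (1 - 1 / (k : ℝ)) ^ N * (M.factorial : ℝ) ^ L *
        (Real.exp N * Real.exp N)
        = ((N.factorial : ℝ) * Real.exp N) * (1 - 1 / (k : ℝ)) ^ N *
          ((M.factorial : ℝ) * Real.exp M) ^ L := by
          rw [mul_pow, ← e1]
          ring
      _ ≤ (3 * (N + 1) * (N : ℝ) ^ N) * (1 - 1 / (k : ℝ)) ^ N *
          (3 * (M + 1) * (M : ℝ) ^ M) ^ L := by
          refine mul_le_mul (mul_le_mul_of_nonneg_right h1 (pow_nonneg hone _)) h2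
            (by positivity) (mul_nonneg (by positivity) (pow_nonneg hone _))
      _ = (3 * (N + 1)) * (3 * ((M : ℝ) + 1)) ^ L * ((1 - 1 / (k : ℝ)) * N * M) ^ N := by
          rw [mul_pow, ← pow_mul (M : ℝ), hLM, mul_pow _ (M : ℝ), mul_pow _ (N : ℝ)]
          ring
      _ ≤ (3 * (N + 1)) * (3 * ((N : ℝ) + 1)) ^ L * ((s.factorial : ℝ) * Real.exp s) ^ (2 * k) := by
          rw [← h4]
          exact mul_le_mul (mul_le_mul_of_nonneg_left h5 (by positivity)) h3 (by positivity)
            (by positivity)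
      _ = _ := by
          rw [mul_pow (s.factorial : ℝ), ← e2]
          ring
  have hE : (0 : ℝ) < Real.exp N * Real.exp N := by positivity
  have h7 := le_of_mul_le_mul_right h6 hE
  have h8 : ((s.factorial : ℝ) ^ (2 * k)) ≤ (M.factorial : ℝ) ^ L * (P : ℝ) := by
    exact_mod_cast h0
  have h9 : (N.factorial : ℝ) * (1 - 1 / (k : ℝ)) ^ N * (M.factorial : ℝ) ^ L ≤
      (3 * ((N : ℝ) + 1)) ^ (k ^ 2 + 1) * (P : ℝ) * (M.factorial : ℝ) ^ L := by
    calc (N.factorial : ℝ) * (1 - 1 / (k : ℝ)) ^ N * (M.factorial : ℝ) ^ L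
        ≤ (3 * ((N : ℝ) + 1)) ^ (L + 1) * ((s.factorial : ℝ) ^ (2 * k)) := h7
      _ ≤ (3 * ((N : ℝ) + 1)) ^ (k ^ 2 + 1) * ((M.factorial : ℝ) ^ L * (P : ℝ)) := by
          refine mul_le_mul (pow_le_pow_right₀ hB1 ?_) h8 (by positivity) (by positivity)
          have : L ≤ k ^ 2 := by
            rw [hL, sq]
            exact Nat.mul_le_mul_left k (Nat.sub_le k 1)
          omega
      _ = _ := by ring
  exact le_of_mul_le_mul_right h9 (by positivity)

end Pool.Agent.N400.LFLOW
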